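import Pool.Agent.Helper24.KG.Main
import Pool.Agent.Helper24.KF.NoBase

/-!
# The Beilinson–Soulé vanishing and Euler characteristics of hypersurface complements

Let `k` be a prime field, `ℚ` or `𝔽_p`, and let `C` be the category of Chow motives over `k` with rational
coefficients. For a motive `N` and `m ≥ 0` let `H m N = H^{-m}(N, ℚ(0))`, an additive functor of `N`. For
`N = h(X)(j)`, `X` smooth and projective, this is `H^{2j-m}(X, ℚ(j)) = CH^j(X, m)_ℚ`. `Van d i j` says that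
`H^i(F, ℤ(j)) = 0` for all fields `F` of the characteristic of `k` and of transcendence degree at most `d` over
`k`. By the injectivity of the Gersten resolution, question Q1 for all fields of this characteristic is
`Van d i j` for all `d` and all `i ≤ 0 < j`. For `d = 0` the statement `Van d i j`, `i ≤ 0 < j`, is known
(Borel, Quillen), for `d ≥ 1` and `j ≥ 2` it is open.

For a separated scheme `X` of finite type over `k` let `W(X)` be its weight complex with compact supports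
(Gillet, Soulé), a bounded complex of Chow motives. If the complex `H m (W(X)(j))` has finite dimensional
cohomology (`HasChi`), let `χ_{m,j}(X)` be its Euler characteristic (`euler`). We look at the open subsets
`D(F) : F ≠ 0` of the affine spaces. For polynomials with coefficients in `ℤ` let `‖F‖` be the sum of the
absolute values of the coefficients, and `size F = deg F + log ‖F‖ / log (log ‖F‖ + 3)`.

**Theorem, characteristic zero.** (1) Let `d ≥ 0` and `J` be given. `H^i(F, ℤ(j)) = 0` for all fields `F` of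
transcendence degree at most `d` over `ℚ`, all `i ≤ 0` and `1 ≤ j ≤ J`, if and only if for all
`1 ≤ j ≤ J` and `m ≥ 2j` the numbers `χ_{m,j}(D(F))` are defined and `o(size F)`, for
`F ∈ ℤ[x_1, …, x_{d+1}]`.

(2) The same if one knows, for each such `m` and `j` and some `κ ≥ 1`, that `χ_{m,j}(D(F))` is defined and
`o((size F)^κ)` in `d + κ` variables; or only a one-sided bound `χ ≤ o((size F)^κ)` (or the same for `-χ`)
in `d + κ` and in `d + κ + 1` variables.

(3) Q1 holds for all fields of characteristic zero if and only if for all `j ≥ 1`, `m ≥ 2j` and `s`, all large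
`r` and `F ∈ ℤ[x_1, …, x_r]` the numbers `χ_{m,j}(D(F))` are defined and at most `o((size F)^{r-s})`; the same
for `-χ`.

**Theorem, characteristic `p`.** (4) Let `d ≥ 0` and `J` be given. `H^i(F, ℤ(j)) = 0` for all fields `F` of
transcendence degree at most `d` over `𝔽_p`, all `i ≤ 0` and `1 ≤ j ≤ J`, if and only if for all
`1 ≤ j ≤ J` and `m ≥ 2j` the numbers `χ_{m,j}(D(F))` are defined and `o(deg F / log (deg F + 3))`, for
`F ∈ 𝔽_p[x_1, …, x_{d+1}]`.

(5) Q1 holds for all fields of characteristic `p` if and only if for all `j ≥ 1` and `m ≥ 2j` the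
numbers `χ_{m,j}(D(F))`, `F ∈ 𝔽_p[x_1, …, x_r]`, are defined for all `r`, and at most `o(p^r)` for
`deg F ≤ p r + b`, for all `b`; the same for `-χ`.
-/

set_option autoImplicit false
set_option linter.checkUnivs false

open CategoryTheory Limits AlgebraicGeometry Pool.Agent.Y116.UV Pool.Agent.Q282.UM
  Pool.Agent.Q282.UK Pool.Agent.Helper24.KD Pool.Agent.Helper24.KF

open Pool.Agent.Helper24.KG (IsWeightsF Zero ZeroDim ZeroAll HasChi euler princ Growth)

universe v u

namespace Pool.Agent.Results.MP_e2821c_ag.EulerCharacteristics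

/-- The sum of the absolute values of the coefficients. -/
def norm {r : ℕ} (F : MvPolynomial (Fin r) ℤ) : ℕ := ∑ s ∈ F.support, (F.coeff s).natAbs

/-- The size `deg F + log ‖F‖ / log (log ‖F‖ + 3)`. -/
noncomputable def size {r : ℕ} (F : MvPolynomial (Fin r) ℤ) : ℝ :=
  F.totalDegree + Real.log (norm F) / Real.log (Real.log (norm F) + 3)

/-- The polynomial with rational coefficients. -/
noncomputable def rat {r : ℕ} (F : MvPolynomial (Fin r) ℤ) : MvPolynomial (Fin r) ℚ :=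
  MvPolynomial.map (algebraMap ℤ ℚ) F

/-- The category `C` of Chow motives over the prime field `k`, with

* the motives `h(X)`, the Tate twists `N(j)` and the weight complexes `W(X)` (`Weights`);
* the functors `H m`;
* the statements `Van d i j` on the fields of transcendence degree at most `d` over `k`. -/
structure Mot (k : Type) [Field k] where
  C : Type u
  [cat : Category.{v} C]
  [pre : Preadditive C]
  [zero : HasZeroObject C]
  [bin : HasBinaryBiproducts C]
  [fin : HasFiniteBiproducts C]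
  D : Weights k C
  H : ℕ → C ⥤ ModuleCat.{0} ℚ
  [additive : ∀ m, (H m).Additive]
  Van : ℕ → ℤ → ℤ → Prop

attribute [instance] Mot.cat Mot.pre Mot.zero Mot.bin Mot.fin Mot.additive

/-- The known properties.

* `low`: `CH^j(X, m)_ℚ = 0` for `j ≤ 0 < m`;
* `points`: `H^i(F, ℚ(j)) = 0` for `i ≤ 0 < j` and the finite extensions `F` of `k` (Borel, Quillen);
* `fields`: the reduction of the fields of transcendence degree at most `d` to the smooth projective schemes of
  dimension at most `d` and to rational coefficients (Gersten resolution, Beilinson–Lichtenbaum). -/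
structure Known {k : Type} [Field k] (M : Mot.{v, u} k) : Prop where
  low : ∀ (m : ℕ) (j : ℤ), 1 ≤ m → j ≤ 0 → ZeroAll (M.H m) M.D j
  points : ∀ (m : ℕ) (j : ℤ), 1 ≤ j → 2 * j ≤ m → ZeroDim (M.H m) M.D j 0
  fields : ∀ (d : ℕ) (J : ℤ), (∀ i j : ℤ, i ≤ 0 → 1 ≤ j → j ≤ J → M.Van d i j) ↔
    ∀ (m : ℕ) (j : ℤ), 1 ≤ j → j ≤ J → 2 * j ≤ m → ZeroDim (M.H m) M.D j d

/-- The numbers `χ_{m,j}(D(F))` are defined and `R χ_{m,j}(D(F)) ≤ o((size F)^κ)`, for
`F ∈ ℤ[x_1, …, x_r]`; `R c` is `|c|`, `c` or `-c`. -/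
def Bound (M : Mot.{v, u} ℚ) (R : ℤ → ℤ) (m : ℕ) (j : ℤ) (r κ : ℕ) : Prop :=
  ∀ ε : ℝ, 0 < ε → ∃ B : ℝ, ∀ F : MvPolynomial (Fin r) ℤ, HasChi (M.H m) M.D j (princ (rat F)) ∧
    (R (euler (M.H m) M.D j (princ (rat F))) : ℝ) ≤ ε * size F ^ κ + B

/-- The numbers `χ_{m,j}(D(F))` are defined and `o(deg F / log (deg F + 3))`, for
`F ∈ k[x_1, …, x_r]`. -/
def LogBound {k : Type} [Field k] (M : Mot.{v, u} k) (m : ℕ) (j : ℤ) (r : ℕ) : Prop :=
  Pool.Agent.Helper24.KG.Bound (M.H m) M.D abs j r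

/-- Q1 for all fields of the characteristic of `k` and of transcendence degree at most `d` over `k`, in
the weights `1 ≤ j ≤ J`. -/
def VanUpTo {k : Type} [Field k] (M : Mot.{v, u} k) (d : ℕ) (J : ℤ) : Prop :=
  ∀ i j : ℤ, i ≤ 0 → 1 ≤ j → j ≤ J → M.Van d i j

/-- The statement `P m j` for all relevant `m` and `j`. -/
def Each (J : ℤ) (P : ℕ → ℤ → Prop) : Prop := ∀ (m : ℕ) (j : ℤ), 1 ≤ j → j ≤ J → 2 * j ≤ m → P m j

section rational

variable {M : Mot.{v, u} ℚ} (hW : IsWeightComplex M.D) (hM : Known M)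

variable (M) in
/-- The Euler characteristic is defined and is `c`. -/
def Q (m : ℕ) (j : ℤ) : Sch ℚ → ℤ → Prop := QT (TOne (M.H m)) M.D j

lemma Q_iff (m : ℕ) (j : ℤ) (X : Sch ℚ) (c : ℤ) :
    Q M m j X c ↔ HasChi (M.H m) M.D j X ∧ euler (M.H m) M.D j X = c := tOne_iff

lemma to_Z {R : ℤ → ℤ} {m : ℕ} {j : ℤ} {r κ : ℕ} (h : Bound M R m j r κ) :
    BoundZ (Q M m j) R r κ := by
  intro ε hε
  obtain ⟨B, hB⟩ := h ε hε
  exact ⟨B, fun F => ⟨_, (Q_iff m j _ _).mpr ⟨(hB F).1, rfl⟩, (hB F).2⟩⟩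

lemma of_Z {R : ℤ → ℤ} {m : ℕ} {j : ℤ} {r κ : ℕ} (h : BoundZ (Q M m j) R r κ) :
    Bound M R m j r κ := by
  intro ε hε
  obtain ⟨B, hB⟩ := h ε hε
  refine ⟨B, fun F => ?_⟩
  obtain ⟨c, h1, h2⟩ := hB F
  obtain ⟨h3, h4⟩ := (Q_iff m j _ c).mp h1
  refine ⟨h3, ?_⟩
  have h5 : euler (M.H m) M.D j (princ (rat F)) = c := h4
  rw [h5]
  exact h2

include hW

lemma dfc (m : ℕ) (j : ℤ) : Pool.Agent.Helper24.KE.Dfc True (Q M m j) := dfcT (tOne _) hW j

lemma exact_dim {m : ℕ} {j : ℤ} {d : ℕ} (h : ZeroDim (M.H m) M.D j d) (X : Sch ℚ)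
    (hX : FT True X) (hd : topologicalKrullDim X.left ≤ d) : Q M m j X 0 :=
  one_zero hW (fun Y hY hYd => h Y hY hYd) X hX hd

lemma zero_of {m : ℕ} {j : ℤ} {X : Sch ℚ} (hX : IsSmoothProjective X) (h : Q M m j X 0) :
    Zero (M.H m) M.D j X := by
  obtain ⟨h2, h3⟩ := one_inZero.mp (projT (tOne _) hW hX h)
  have h4 : Subsingleton ((M.H m).obj ((M.D.tw j).obj (M.D.h X))) :=
    Module.finrank_zero_iff.mp (by exact_mod_cast h3)
  exact h4

include hM

lemma space {m : ℕ} {j : ℤ} (hj : 1 ≤ j) (hjm : 2 * j ≤ m) (r : ℕ) :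
    Q M m j (aff ℚ (MvPolynomial (Fin r) ℚ)) 0 := by
  refine spaceT_one (tOne _) hW ?_
  have h0 : topologicalKrullDim (aff ℚ ℚ).left ≤ (0 : ℕ) := by
    rw [Pool.Agent.Z125.UN.topDim_aff, ringKrullDim_eq_zero_of_field]
    exact le_rfl
  rcases le_or_gt (j - r) 0 with h1 | h1
  · exact exact_dim hW (fun X hX _ => hM.low m _ (by omega) h1 X hX) _ (ft_aff True) h0
  · exact exact_dim hW (hM.points m _ (by omega) (by omega)) _ (ft_aff True) h0

theorem dim_iff {m : ℕ} {j : ℤ} (hj : 1 ≤ j) (hjm : 2 * j ≤ m) (d : ℕ) :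
    ZeroDim (M.H m) M.D j d ↔ Bound M abs m j (d + 1) 1 :=
  ⟨fun h => of_Z (to_boundZ (exact_open (dfc hW m j) (space hW hM hj hjm) (exact_dim hW h))
    abs_zero 1), fun h X hX hd => zero_of hW hX
      (main_abs (dfc hW m j) (space hW hM hj hjm) le_rfl (to_Z h) X (ft_projective hX) hd)⟩

theorem dim_of {m : ℕ} {j : ℤ} (hj : 1 ≤ j) (hjm : 2 * j ≤ m) {d κ : ℕ} (hκ : 1 ≤ κ)
    (h : Bound M abs m j (d + κ) κ ∨ ∃ R : ℤ → ℤ, (R = id ∨ R = Neg.neg) ∧
      Bound M R m j (d + κ) κ ∧ Bound M R m j (d + κ + 1) κ) : ZeroDim (M.H m) M.D j d := by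
  intro X hX hd
  refine zero_of hW hX ?_
  rcases h with h | ⟨R, hR, h, h'⟩
  · exact main_abs (dfc hW m j) (space hW hM hj hjm) hκ (to_Z h) X (ft_projective hX) hd
  · exact main_one (dfc hW m j) (space hW hM hj hjm) hκ hR (to_Z h) (to_Z h') X
      (ft_projective hX) hd

theorem all_iff {m : ℕ} {j : ℤ} (hj : 1 ≤ j) (hjm : 2 * j ≤ m) {R : ℤ → ℤ}
    (hR : R = id ∨ R = Neg.neg) : (∀ d, ZeroDim (M.H m) M.D j d) ↔
      ∀ s : ℕ, ∃ r₀ : ℕ, ∀ r, r₀ ≤ r → Bound M R m j r (r - s) := by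
  constructor
  · intro h s
    refine ⟨1, fun r hr => ?_⟩
    obtain ⟨d, rfl⟩ : ∃ d, r = d + 1 := ⟨r - 1, by omega⟩
    refine of_Z (to_boundZ (exact_open (dfc hW m j) (space hW hM hj hjm) (exact_dim hW (h d)))
      ?_ _)
    rcases hR with rfl | rfl
    · rfl
    · exact neg_zero
  · intro h d X hX _
    exact zero_of hW hX (main_all (dfc hW m j) (space hW hM hj hjm) hR (fun s => by
      obtain ⟨r₀, hr⟩ := h s
      exact ⟨r₀, fun r h1 => to_Z (hr r h1)⟩) X (ft_projective hX))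

end rational

section finite

variable {k : Type} [Field k] [Finite k] {M : Mot.{v, u} k} (hW : IsWeightsF M.D)
  (hM : Known M) (hq : ∀ (m : ℕ) (j : ℤ), 1 ≤ m → ZeroDim (M.H m) M.D j 0)

include hW hM hq

omit [Finite k] in
lemma knownF {m : ℕ} (hm : 1 ≤ m) : Pool.Agent.Helper24.KG.Known (M.H m) M.D where
  weight := hW
  points j := hq m j hm
  negative j hj := hM.low m j hm hj.le

theorem log_iff {m : ℕ} (hm : 1 ≤ m) (j : ℤ) (d : ℕ) :
    ZeroDim (M.H m) M.D j d ↔ LogBound M m j (d + 1) :=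
  ⟨fun h => Pool.Agent.Helper24.KG.to_bound (knownF hW hM hq hm) h abs_zero,
    fun h => Pool.Agent.Helper24.KG.from_abs (knownF hW hM hq hm) h⟩

/-- All dimensions. -/
theorem growth_iff {R : ℤ → ℤ} (hR : R = id ∨ R = Neg.neg) :
    (∀ (d : ℕ) (J : ℤ), VanUpTo M d J) ↔
      ∀ (m : ℕ) (j : ℤ), 1 ≤ j → 2 * j ≤ m → Growth (M.H m) M.D R j := by
  have hR0 : R 0 = 0 := by
    rcases hR with rfl | rfl
    · rfl
    · exact neg_zero
  constructor
  · intro h m j hj hjm
    refine Pool.Agent.Helper24.KG.to_growth (knownF hW hM hq (by omega)) (fun X hX => ?_) hR0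
    have h1 := Pool.Agent.Helper24.KG.zero_iff (knownF hW hM hq (m := m) (by omega))
      (j := j) hX
    refine h1 ?_
    have h2 : ∀ (d : ℕ), ZeroDim (M.H m) M.D j d := fun d =>
      (hM.fields d j).mp (h d j) m j hj le_rfl hjm
    exact Pool.Agent.Helper24.KG.all_of_V (tOne (M.H m)) hW
      (Pool.Agent.Helper24.KG.exact_space (knownF hW hM hq (by omega)) j) (fun r g => by
        obtain ⟨N, hN⟩ := Pool.Agent.Helper24.KZ.exists_dim_aff (k := k)
          (MvPolynomial (Fin r) k ⧸ Ideal.span {g})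
        exact Pool.Agent.Helper24.KG.one_zeroF hW (N := N) (fun Y hY hYd => h2 N Y hY hYd) _
          (ft_aff True) hN) X (ft_projective hX)
  · intro h d J
    refine (hM.fields d J).mpr fun m j hj hjJ hjm X hX _ => ?_
    refine Pool.Agent.Helper24.KG.from_growth (knownF hW hM hq (m := m) (by omega)) hR
      (J := j) (fun i hi => ?_) j le_rfl X hX
    rcases le_or_gt i 0 with h1 | h1
    · exact Pool.Agent.Helper24.KG.to_growth (knownF hW hM hq (by omega))
        (hM.low m i (by omega) h1) hR0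
    · exact h m i (by omega) (by omega)

end finite

/-- **The Beilinson–Soulé vanishing and Euler characteristics of hypersurface complements.** See the
explanations above. -/
theorem result (M : ∀ (k : Type) [Field k], Mot.{v, u} k) :
    -- characteristic zero
    (IsWeightComplex (M ℚ).D → Known (M ℚ) →
      (∀ (d : ℕ) (J : ℤ), VanUpTo (M ℚ) d J ↔ Each J fun m j => Bound (M ℚ) abs m j (d + 1) 1) ∧
      (∀ (d : ℕ) (J : ℤ), (Each J fun m j => ∃ κ : ℕ, 1 ≤ κ ∧ (Bound (M ℚ) abs m j (d + κ) κ ∨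
        ∃ R : ℤ → ℤ, (R = id ∨ R = Neg.neg) ∧ Bound (M ℚ) R m j (d + κ) κ ∧
          Bound (M ℚ) R m j (d + κ + 1) κ)) → VanUpTo (M ℚ) d J) ∧
      ∀ R : ℤ → ℤ, (R = id ∨ R = Neg.neg) → ((∀ (d : ℕ) (J : ℤ), VanUpTo (M ℚ) d J) ↔
        ∀ J : ℤ, Each J fun m j => ∀ s : ℕ, ∃ r₀ : ℕ, ∀ r, r₀ ≤ r →
          Bound (M ℚ) R m j r (r - s))) ∧
    -- positive characteristic
    ∀ (p : ℕ) [Fact p.Prime], IsWeightsF (M (ZMod p)).D → Known (M (ZMod p)) →
      (∀ (m : ℕ) (j : ℤ), 1 ≤ m → ZeroDim ((M (ZMod p)).H m) (M (ZMod p)).D j 0) →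
      (∀ (d : ℕ) (J : ℤ), VanUpTo (M (ZMod p)) d J ↔
        Each J fun m j => LogBound (M (ZMod p)) m j (d + 1)) ∧
      ∀ R : ℤ → ℤ, (R = id ∨ R = Neg.neg) → ((∀ (d : ℕ) (J : ℤ), VanUpTo (M (ZMod p)) d J) ↔
        ∀ J : ℤ, Each J fun m j => Growth ((M (ZMod p)).H m) (M (ZMod p)).D R j) := by
  refine ⟨fun hW hM => ⟨fun d J => ?_, fun d J h => ?_, fun R hR => ⟨fun h J m j hj _ hjm => ?_,
    fun h d J => ?_⟩⟩, fun p _ hW hM hq => ⟨fun d J => ?_, fun R hR => ?_⟩⟩
  · refine (hM.fields d J).trans ?_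
    exact forall₂_congr fun m j => forall₃_congr fun hj _ hjm => dim_iff hW hM hj hjm d
  · refine (hM.fields d J).mpr fun m j hj hjJ hjm => ?_
    obtain ⟨κ, hκ, h1⟩ := h m j hj hjJ hjm
    exact dim_of hW hM hj hjm hκ h1
  · exact (all_iff hW hM hj hjm hR).mp fun d => (hM.fields d j).mp (h d j) m j hj le_rfl hjm
  · exact (hM.fields d J).mpr fun m j hj hjJ hjm =>
      (all_iff hW hM hj hjm hR).mpr (h J m j hj hjJ hjm) d
  · refine (hM.fields d J).trans ?_
    exact forall₂_congr fun m j => forall₃_congr fun hj _ hjm => log_iff hW hM hq (by omega) j d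
  · rw [growth_iff hW hM hq hR]
    exact ⟨fun h J m j hj _ hjm => h m j hj hjm, fun h m j hj hjm => h j m j hj le_rfl hjm⟩

end Pool.Agent.Results.MP_e2821c_ag.EulerCharacteristics
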