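import Pool.Agent.Helper7.AF.Main

/-!
# The Beilinson–Soulé conjecture is decided in degree `0` by one ample field of infinite
transcendence degree in each characteristic
-/

set_option autoImplicit false

namespace Pool.Agent.Results.MP_e2821c_ag.OneAmpleField

open Cardinal Pool.Agent.Q26.SP.Zero Pool.Agent.Helper7.BS Pool.Agent.Helper7.AF

/-- Let `P` be a prime field.

(1) Let `K` be an ample (large) field of the characteristic of `P` (`K` is existentially closed in
`K((t))`) of infinite transcendence degree over `P`, and let `L` be any field containing `K`. The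
following are equivalent (`Decides`):

1. `ℋⁱ(ℤ(n)) = 0` on `Sm/k` for all fields `k` of the characteristic of `P`, `n ≥ 1`, `i ≤ 0`;
2. `H⁰(L, ℤ(n)) = 0` for all `n ≥ 1`;
3. the dimension of `H⁰(L, ℚ(n))` is less than the transcendence degree of `K`, for all `n ≥ 1`;
4. `Hⁱ(F, ℤ(n)) = 0` for all fields `F` of the characteristic of `P`, `n ≥ 1`, `i ≤ 0`.

Moreover, in each bidegree with `i ≤ 0`, `n ≥ 1`: `Hⁱ(L, ℤ(n)) = 0` if and only if
`Hⁱ(F, ℤ(n)) = 0` for all fields `F` of the characteristic of `P`; and `Hⁱ(L, ℚ(n))` is zero or of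
dimension at least the transcendence degree of `K`.

(2) The same holds if `K` is complete with respect to a nontrivial absolute value, with the
cardinality of `K` in place of its transcendence degree, and (3) for `K = k((t))`, `k` any field.

(4) The question has a positive answer if and only if `H⁰(K, ℤ(n)) = 0` for all `n ≥ 1` for one
ample field `K` of infinite transcendence degree in each characteristic. (5) In particular this is
so if and only if `H⁰(ℝ, ℤ(n)) = 0` and `H⁰(𝔽_q((t)), ℤ(n)) = 0` for all primes `q` and all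
`n ≥ 1`; (6) the same holds with `ℚ_p` for one prime `p` in place of `ℝ`. -/
theorem result (M : MotivicDescent) :
    (∀ (P K L : Type) [Field P] [Field K] [Algebra P K] [Field L] [Algebra K L],
      IsPrimeField P → Ample K → ℵ₀ ≤ Algebra.trdeg P K →
        Decides M P L (Algebra.trdeg P K)) ∧
    (∀ (P K L : Type) [Field P] [NontriviallyNormedField K] [CompleteSpace K] [Algebra P K]
      [Field L] [Algebra K L], IsPrimeField P → Decides M P L #K) ∧
    (∀ (P k L : Type) [Field P] [Field k] [Algebra P (LaurentSeries k)] [Field L]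
      [Algebra (LaurentSeries k) L], IsPrimeField P → Decides M P L #(LaurentSeries k)) ∧
    (∀ (K₀ : Type) [Field K₀] [Algebra ℚ K₀] (K : ∀ (q : ℕ) [Fact q.Prime], Type)
      [∀ (q : ℕ) [Fact q.Prime], Field (K q)] [∀ (q : ℕ) [Fact q.Prime], Algebra (ZMod q) (K q)],
      (Ample K₀ ∧ ℵ₀ ≤ Algebra.trdeg ℚ K₀) →
      (∀ (q : ℕ) [Fact q.Prime], Ample (K q) ∧ ℵ₀ ≤ Algebra.trdeg (ZMod q) (K q)) →
      (Question M.toMotivic ↔ ZeroVanish M.toMotivic K₀ ∧
        ∀ (q : ℕ) [Fact q.Prime], ZeroVanish M.toMotivic (K q))) ∧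
    (Question M.toMotivic ↔ ZeroVanish M.toMotivic ℝ ∧
      ∀ (q : ℕ) [Fact q.Prime], ZeroVanish M.toMotivic (LaurentSeries (ZMod q))) ∧
    ∀ (p : ℕ) [Fact p.Prime],
      (Question M.toMotivic ↔ ZeroVanish M.toMotivic ℚ_[p] ∧
        ∀ (q : ℕ) [Fact q.Prime], ZeroVanish M.toMotivic (LaurentSeries (ZMod q))) :=
  ⟨fun P K L _ _ _ _ _ hP hK hκ => decides_ample M P K L hP hK hκ,
    fun P K L _ _ _ _ _ _ hP => decides_complete' M P K L hP,
    fun P k L _ _ _ _ _ hP => decides_laurent' M P k L hP,
    fun K₀ _ _ K _ _ h₀ h => question_ample M K₀ h₀.1 h₀.2 K (fun q _ => (h q).1)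
      fun q _ => (h q).2,
    question_iff M ℝ, fun p _ => question_iff M ℚ_[p]⟩

end Pool.Agent.Results.MP_e2821c_ag.OneAmpleField
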