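import Pool.Agent.Helper24.SE.Fin
import Pool.Agent.Helper24.SE.Rat
import Pool.Agent.Helper24.KF.NoBase

/-!
# The Beilinson–Soulé vanishing and exceptional sets with a power saving

Let `k` be a prime field, `ℚ` or `𝔽_p`, and let `C` be the category of Chow motives over `k` with rational
coefficients. For a motive `N` and `m ≥ 0` let `H m N = H^{-m}(N, ℚ(0))`, an additive functor of `N`. For
`N = h(X)(j)`, `X` smooth and projective, this is `H^{2j-m}(X, ℚ(j)) = CH^j(X, m)_ℚ`. `Van d i j` says that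
`H^i(F, ℤ(j)) = 0` for all fields `F` of the characteristic of `k` and of transcendence degree at most `d` over
`k`. By the injectivity of the Gersten resolution, question Q1 for all fields of this characteristic is
`Van d i j` for all `d` and all `i ≤ 0 < j`. For `d = 0` the statement `Van d i j`, `i ≤ 0 < j`, is known
(Borel, Quillen), for `d ≥ 1` and `j ≥ 2` it is open.

For a separated scheme `X` of finite type over `k` let `W(X)` be its weight complex with compact supports
(Gillet, Soulé), a bounded complex of Chow motives. Let `F` be a polynomial in `r` variables, with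
coefficients in `ℤ` if `k = ℚ` and in `𝔽_p` if `k = 𝔽_p`, and `D(F) : F ≠ 0` the open subset of the affine space
over `k`. We call `F` an exception for `m` and `j` if it is false that the complex `H m (W(D(F))(j))` has
cohomology of finite total dimension and Euler characteristic zero. For `k = ℚ` let `Box(D, B)` be the finite
set of the `F` of degree at most `D` in each variable for which the sum of the absolute values of the
coefficients is at most `B`, for `k = 𝔽_p` let `Box(D)` be the finite set of the `F` of degree at most `D` in each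
variable, and `Exc(D, B)`, `Exc(D)` the sets of the exceptions in the box. The exceptional sets have a power
saving, if for some `ε > 0` there are infinitely many `D`, and for `k = ℚ` for these infinitely many `B`, with
`#Exc ≤ #Box ^ (1 - ε)`.

**Theorem.** (1) Let `d ≥ 0` and `J` be given. `H^i(F, ℤ(j)) = 0` for all fields `F` of transcendence degree at
most `d` over `k`, all `i ≤ 0` and `1 ≤ j ≤ J`, if and only if for all `1 ≤ j ≤ J` and `m ≥ 2j` the exceptional
sets for `m`, `j` in `d + 1` variables have a power saving.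

(2) Q1 holds for all fields of the characteristic of `k` if and only if for all `j ≥ 1`, `m ≥ 2j` the
exceptional sets in `r` variables have a power saving, for infinitely many `r`.

(3) A zero–one law: let `j ≥ 1` and `m ≥ 2j`. If there is one exception in `r ≥ 1` variables, then for every
`ε > 0` and all large `D` (and, for `k = ℚ`, all large `B`, depending on `D`) there are more than
`#Box ^ (1 - ε)` exceptions in the box.
-/

set_option autoImplicit false
set_option linter.checkUnivs false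

open CategoryTheory Limits AlgebraicGeometry Filter Pool.Agent.Y116.UV Pool.Agent.Q282.UM
  Pool.Agent.Q282.UK Pool.Agent.Helper62.EC Pool.Agent.Helper24.KD Pool.Agent.Helper24.KF

open Pool.Agent.Helper24.KG (IsWeightsF Zero ZeroDim ZeroAll HasChi euler princ)

open Pool.Agent.Helper24.SE (Box Exc Saving BoxF ExcF SavingF)

universe v u

namespace Pool.Agent.Results.MP_e2821c_ag.PowerSaving

/-- The polynomial with rational coefficients. -/
noncomputable def rat {r : ℕ} (F : MvPolynomial (Fin r) ℤ) : MvPolynomial (Fin r) ℚ :=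
  MvPolynomial.map (algebraMap ℤ ℚ) F

/-- The category `C` of Chow motives over the prime field `k`, with

* the motives `h(X)`, the Tate twists `N(j)` and the weight complexes `W(X)` (`Weights`);
* the functors `H m`;
* the statements `Van d i j` on the fields of transcendence degree at most `d` over `k`. -/
structure Mot (k : Type) [Field k] where
  C : Type u
  [cat : Category.{v} C]
  [pre : Preadditive C]
  [zero : HasZeroObject C]
  [bin : HasBinaryBiproducts C]
  [fin : HasFiniteBiproducts C]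
  D : Weights k C
  H : ℕ → C ⥤ ModuleCat.{0} ℚ
  [additive : ∀ m, (H m).Additive]
  Van : ℕ → ℤ → ℤ → Prop

attribute [instance] Mot.cat Mot.pre Mot.zero Mot.bin Mot.fin Mot.additive

/-- The known properties.

* `low`: `CH^j(X, m)_ℚ = 0` for `j ≤ 0 < m`;
* `points`: `H^i(F, ℚ(j)) = 0` for `i ≤ 0 < j` and the finite extensions `F` of `k` (Borel, Quillen);
* `fields`: the reduction of the fields of transcendence degree at most `d` to the smooth projective schemes of
  dimension at most `d` and to rational coefficients (Gersten resolution, Beilinson–Lichtenbaum). -/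
structure Known {k : Type} [Field k] (M : Mot.{v, u} k) : Prop where
  low : ∀ (m : ℕ) (j : ℤ), 1 ≤ m → j ≤ 0 → ZeroAll (M.H m) M.D j
  points : ∀ (m : ℕ) (j : ℤ), 1 ≤ j → 2 * j ≤ m → ZeroDim (M.H m) M.D j 0
  fields : ∀ (d : ℕ) (J : ℤ), (∀ i j : ℤ, i ≤ 0 → 1 ≤ j → j ≤ J → M.Van d i j) ↔
    ∀ (m : ℕ) (j : ℤ), 1 ≤ j → j ≤ J → 2 * j ≤ m → ZeroDim (M.H m) M.D j d

/-- Q1 for all fields of the characteristic of `k` and of transcendence degree at most `d` over `k`, in
the weights `1 ≤ j ≤ J`. -/
def VanUpTo {k : Type} [Field k] (M : Mot.{v, u} k) (d : ℕ) (J : ℤ) : Prop :=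
  ∀ i j : ℤ, i ≤ 0 → 1 ≤ j → j ≤ J → M.Van d i j

/-- The statement `P m j` for all relevant `m` and `j`. -/
def Each (J : ℤ) (P : ℕ → ℤ → Prop) : Prop := ∀ (m : ℕ) (j : ℤ), 1 ≤ j → j ≤ J → 2 * j ≤ m → P m j

/-- `F` is an exception for `m` and `j`: it is false that the Euler characteristic of `H m (W(D(F))(j))` is
defined and zero. -/
def Exception {k : Type} [Field k] (M : Mot.{v, u} k) (m : ℕ) (j : ℤ) {r : ℕ}
    (F : MvPolynomial (Fin r) k) : Prop :=
  ¬ (HasChi (M.H m) M.D j (princ F) ∧ euler (M.H m) M.D j (princ F) = 0)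

/-- The same for polynomials with coefficients in `ℤ`. -/
def ExceptionZ (M : Mot.{v, u} ℚ) (m : ℕ) (j : ℤ) {r : ℕ} (F : MvPolynomial (Fin r) ℤ) : Prop :=
  Exception M m j (rat F)

section rational

variable {M : Mot.{v, u} ℚ} (hW : IsWeightComplex M.D) (hM : Known M)

variable (M) in
/-- The Euler characteristic is defined and is zero. -/
def P (m : ℕ) (j : ℤ) (X : Sch ℚ) : Prop := QT (TOne (M.H m)) M.D j X 0

lemma exc_eq (m : ℕ) (j : ℤ) (r : ℕ) : (ExceptionZ M m j : MvPolynomial (Fin r) ℤ → Prop) =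
    fun F => ¬ P M m j (Pool.Agent.Helper24.KE.U (Pool.Agent.Helper24.KE.toQ F)) := by
  funext F
  exact propext (not_congr tOne_iff.symm)

include hW

lemma cls (m : ℕ) (j : ℤ) : Cls True (P M m j) := (dfcT (tOne _) hW j).cls

lemma exact_dim {m : ℕ} {j : ℤ} {d : ℕ} (h : ZeroDim (M.H m) M.D j d) (X : Sch ℚ)
    (hX : FT True X) (hd : topologicalKrullDim X.left ≤ d) : P M m j X :=
  one_zero hW (fun Y hY hYd => h Y hY hYd) X hX hd

lemma zero_of {m : ℕ} {j : ℤ} {X : Sch ℚ} (hX : IsSmoothProjective X) (h : P M m j X) :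
    Zero (M.H m) M.D j X := by
  obtain ⟨h2, h3⟩ := one_inZero.mp (projT (tOne _) hW hX h)
  have h4 : Subsingleton ((M.H m).obj ((M.D.tw j).obj (M.D.h X))) :=
    Module.finrank_zero_iff.mp (by exact_mod_cast h3)
  exact h4

include hM

lemma space {m : ℕ} {j : ℤ} (hj : 1 ≤ j) (hjm : 2 * j ≤ m) (r : ℕ) :
    P M m j (aff ℚ (MvPolynomial (Fin r) ℚ)) := by
  refine spaceT_one (tOne _) hW ?_
  have h0 : topologicalKrullDim (aff ℚ ℚ).left ≤ (0 : ℕ) := by
    rw [Pool.Agent.Z125.UN.topDim_aff, ringKrullDim_eq_zero_of_field]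
    exact le_rfl
  rcases le_or_gt (j - r) 0 with h1 | h1
  · exact exact_dim hW (fun X hX _ => hM.low m _ (by omega) h1 X hX) _ (ft_aff True) h0
  · exact exact_dim hW (hM.points m _ (by omega) (by omega)) _ (ft_aff True) h0

theorem dim_iff {m : ℕ} {j : ℤ} (hj : 1 ≤ j) (hjm : 2 * j ≤ m) (d : ℕ) :
    ZeroDim (M.H m) M.D j d ↔ Saving (r := d + 1) (ExceptionZ M m j) := by
  rw [exc_eq, ← Pool.Agent.Helper24.SE.saving_dim (cls hW m j) (space hW hM hj hjm) d]
  exact ⟨fun h X hX hd => exact_dim hW h X hX hd,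
    fun h X hX hd => zero_of hW hX (h X (ft_projective hX) hd)⟩

theorem all_iff {m : ℕ} {j : ℤ} (hj : 1 ≤ j) (hjm : 2 * j ≤ m) :
    (∀ d, ZeroDim (M.H m) M.D j d) ↔
      ∃ᶠ r : ℕ in atTop, Saving (r := r) (ExceptionZ M m j) := by
  constructor
  · intro h
    refine Frequently.of_forall fun r => ⟨1, one_pos, Frequently.of_forall fun D =>
      Frequently.of_forall fun B => ?_⟩
    have h1 : Exc (r := r) (ExceptionZ M m j) D B = ∅ := by
      rw [Set.eq_empty_iff_forall_notMem, exc_eq]
      intro F hF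
      obtain ⟨N, hN⟩ := Pool.Agent.Helper24.KZ.exists_dim_aff (k := ℚ)
        (Localization.Away (Pool.Agent.Helper24.KE.toQ F))
      exact hF.2 (exact_dim hW (h N) _ (ft_aff True) hN)
    rw [h1, Set.ncard_empty, Nat.cast_zero]
    exact Real.rpow_nonneg (Nat.cast_nonneg _) _
  · intro h d
    obtain ⟨r, hr, hrd⟩ := (h.and_eventually (eventually_ge_atTop (d + 1))).exists
    obtain ⟨d', rfl⟩ : ∃ d', r = d' + 1 := ⟨r - 1, by omega⟩
    have h1 := (dim_iff hW hM hj hjm d').mpr hr
    exact fun X hX hd => h1 X hX (hd.trans (by exact_mod_cast (by omega : d ≤ d')))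

theorem full {m : ℕ} {j : ℤ} (hj : 1 ≤ j) (hjm : 2 * j ≤ m) {r : ℕ} {G : MvPolynomial (Fin r) ℤ}
    (hG : ExceptionZ M m j G) {ε : ℝ} (hε : 0 < ε) : ∀ᶠ D : ℕ in atTop, ∀ᶠ B : ℕ in atTop,
      ((Box r D B).ncard : ℝ) ^ (1 - ε) < ((Exc (r := r) (ExceptionZ M m j) D B).ncard : ℝ) := by
  rw [exc_eq] at hG ⊢
  exact Pool.Agent.Helper24.SE.full_rat (cls hW m j) (space hW hM hj hjm) hG hε

end rational

section finite

variable {k : Type} [Field k] [Finite k] {M : Mot.{v, u} k} (hW : IsWeightsF M.D)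
  (hM : Known M) (hq : ∀ (m : ℕ) (j : ℤ), 1 ≤ m → ZeroDim (M.H m) M.D j 0)

include hW hM hq

omit [Finite k] in
lemma knownF {m : ℕ} (hm : 1 ≤ m) : Pool.Agent.Helper24.KG.Known (M.H m) M.D where
  weight := hW
  points j := hq m j hm
  negative j hj := hM.low m j hm hj.le

theorem dimF_iff {m : ℕ} (hm : 1 ≤ m) (j : ℤ) (d : ℕ) :
    ZeroDim (M.H m) M.D j d ↔ SavingF (k := k) (r := d + 1) (Exception M m j) :=
  Pool.Agent.Helper24.SE.functorF_dim (knownF hW hM hq hm) j d

theorem allF_iff {m : ℕ} (hm : 1 ≤ m) (j : ℤ) : (∀ d, ZeroDim (M.H m) M.D j d) ↔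
    ∃ᶠ r : ℕ in atTop, SavingF (k := k) (r := r) (Exception M m j) := by
  refine Iff.trans ?_ (Pool.Agent.Helper24.SE.functorF_all (knownF hW hM hq hm) j)
  constructor
  · intro h X hX
    have h1 : Pool.Agent.Helper24.KG.ZeroAll (M.H m) M.D j := by
      intro Y hY
      refine Pool.Agent.Helper24.KG.zero_iff (knownF hW hM hq hm) hY ?_
      refine of_affine' (P := fun X => QT (TOne (M.H m)) M.D j X 0)
        (Pool.Agent.Helper24.KG.dfcF (tOne _) hW j).cls.iso
        (Pool.Agent.Helper24.KG.dfcF (tOne _) hW j).cls.total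
        (fun B _ _ _ => ?_) Y (ft_projective hY)
      obtain ⟨N, hN⟩ := Pool.Agent.Helper24.KZ.exists_dim_aff (k := k) B
      exact Pool.Agent.Helper24.KG.one_zeroF hW (N := N) (fun Z hZ hZd => h N Z hZ hZd) _
        (ft_aff True) hN
    exact h1 X hX
  · exact fun h d X hX _ => h X hX

end finite

/-- **The Beilinson–Soulé vanishing and exceptional sets with a power saving.** See the explanations
above. -/
theorem result (M : ∀ (k : Type) [Field k], Mot.{v, u} k) :
    -- characteristic zero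
    (IsWeightComplex (M ℚ).D → Known (M ℚ) →
      (∀ (d : ℕ) (J : ℤ), VanUpTo (M ℚ) d J ↔
        Each J fun m j => Saving (r := d + 1) (ExceptionZ (M ℚ) m j)) ∧
      ((∀ (d : ℕ) (J : ℤ), VanUpTo (M ℚ) d J) ↔
        ∀ J : ℤ, Each J fun m j => ∃ᶠ r : ℕ in atTop, Saving (r := r) (ExceptionZ (M ℚ) m j)) ∧
      ∀ (m : ℕ) (j : ℤ), 1 ≤ j → 2 * j ≤ m → ∀ (r : ℕ) (G : MvPolynomial (Fin r) ℤ),
        ExceptionZ (M ℚ) m j G → ∀ ε : ℝ, 0 < ε → ∀ᶠ D : ℕ in atTop, ∀ᶠ B : ℕ in atTop,
          ((Box r D B).ncard : ℝ) ^ (1 - ε) <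
            ((Exc (r := r) (ExceptionZ (M ℚ) m j) D B).ncard : ℝ)) ∧
    -- positive characteristic
    ∀ (p : ℕ) [Fact p.Prime], IsWeightsF (M (ZMod p)).D → Known (M (ZMod p)) →
      (∀ (m : ℕ) (j : ℤ), 1 ≤ m → ZeroDim ((M (ZMod p)).H m) (M (ZMod p)).D j 0) →
      (∀ (d : ℕ) (J : ℤ), VanUpTo (M (ZMod p)) d J ↔
        Each J fun m j => SavingF (k := ZMod p) (r := d + 1) (Exception (M (ZMod p)) m j)) ∧
      ((∀ (d : ℕ) (J : ℤ), VanUpTo (M (ZMod p)) d J) ↔
        ∀ J : ℤ, Each J fun m j =>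
          ∃ᶠ r : ℕ in atTop, SavingF (k := ZMod p) (r := r) (Exception (M (ZMod p)) m j)) ∧
      ∀ (m : ℕ) (j : ℤ), 1 ≤ j → 2 * j ≤ m → ∀ (r : ℕ) (G : MvPolynomial (Fin (r + 1)) (ZMod p)),
        Exception (M (ZMod p)) m j G → ∀ ε : ℝ, 0 < ε → ∀ᶠ D : ℕ in atTop,
          ((BoxF (ZMod p) (r + 1) D).ncard : ℝ) ^ (1 - ε) <
            ((ExcF (k := ZMod p) (r := r + 1) (Exception (M (ZMod p)) m j) D).ncard : ℝ) := by
  refine ⟨fun hW hM => ⟨fun d J => ?_, ⟨fun h J m j hj _ hjm => ?_, fun h d J => ?_⟩,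
    fun m j hj hjm r G hG ε hε => full hW hM hj hjm hG hε⟩,
    fun p _ hW hM hq => ⟨fun d J => ?_, ⟨fun h J m j hj _ hjm => ?_, fun h d J => ?_⟩,
      fun m j hj hjm r G hG ε hε => ?_⟩⟩
  · refine (hM.fields d J).trans ?_
    exact forall₂_congr fun m j => forall₃_congr fun hj _ hjm => dim_iff hW hM hj hjm d
  · exact (all_iff hW hM hj hjm).mp fun d => (hM.fields d j).mp (h d j) m j hj le_rfl hjm
  · exact (hM.fields d J).mpr fun m j hj hjJ hjm =>
      (all_iff hW hM hj hjm).mpr (h J m j hj hjJ hjm) d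
  · refine (hM.fields d J).trans ?_
    exact forall₂_congr fun m j => forall₃_congr fun hj _ hjm => dimF_iff hW hM hq (by omega) j d
  · exact (allF_iff hW hM hq (by omega) j).mp fun d =>
      (hM.fields d j).mp (h d j) m j hj le_rfl hjm
  · exact (hM.fields d J).mpr fun m j hj hjJ hjm =>
      (allF_iff hW hM hq (by omega) j).mpr (h J m j hj hjJ hjm) d
  · exact Pool.Agent.Helper24.SE.functorF_full (knownF hW hM hq (by omega)) j hG hε

end Pool.Agent.Results.MP_e2821c_ag.PowerSaving
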