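import Pool.Agent.Helper24.KG.Main
import Pool.Agent.Helper7.UT.MainF

/-!
# The Beilinson–Soulé vanishing and unions of two affine spaces

Let `k` be a perfect field, for the application `ℚ` or a prime field of characteristic `p`. Let `C` be the category
of Chow motives over `k` with rational coefficients. For a motive `N` and `m ≥ 0` let `H m N = H^{-m}(N, ℚ(0))`, an
additive functor of `N`. For `N = h(Y)(j)`, `Y` smooth and projective over `k`, this is `CH^j(Y, m)_ℚ`.

For `d, i, j` let `Van d i j` be the statement that `H^i(E, ℤ(j)) = 0` for all fields `E` of transcendence degree at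
most `d` over `k`. Question Q1 for the fields of the characteristic of `k` is `Van d i j` for all `d`, `i ≤ 0` and
`j ≥ 1`.

For a separated scheme `X` of finite type over `k` let `W(X)` be its weight complex with compact supports
(Gillet, Soulé), a bounded complex of Chow motives. For a polynomial `f` in `x_1, …, x_N` let `S_f` be the scheme
`t ^ 2 - t = y f(x)` over `k` (`dbl f`), the coordinates being `x_1, …, x_N, y, t`, and let `V_f` be the
hypersurface `f = 0` (`hyper f`).

**Theorem.** (1) `S_f` is a smooth affine variety and the union of two open subsets which are isomorphic to the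
affine space of dimension `N + 1`.

Let `j ≥ 1` and `m ≥ 2j` in (2) and (3).

(2) The complex `H m (W(S_f)(j+1))` is exact if and only if `H m (W(V_f)(j))` is.

(3) Let `d ≥ 0`. One has `CH^j(Y, m)_ℚ = 0` for all smooth projective `Y` of dimension at most `d` over `k`, if and
only if `H m (W(S_f)(j+1))` is exact for all `f` in `d + 1` variables.

(4) Let `d ≥ 0` and `J` be given. Then `H^i(E, ℤ(j)) = 0` for all `i ≤ 0`, `1 ≤ j ≤ J` and all fields `E` of
transcendence degree at most `d` over `k`, if and only if for all `1 ≤ j ≤ J` and `m ≥ 2j` the complex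
`H m (W(S_f)(j+1))` is exact for all `f` in `d + 1` variables.

(5) Q1 holds for the fields of the characteristic of `k` if and only if `H m (W(S_f)(j+1))` is exact for all
`j ≥ 1`, `m ≥ 2j` and all `f` in any number of variables.
-/

set_option autoImplicit false
set_option linter.checkUnivs false

open CategoryTheory Limits AlgebraicGeometry Pool.Agent.Y116.UV Pool.Agent.Q282.UM
  Pool.Agent.Q282.UK Pool.Agent.Helper62.EC

open Pool.Agent.Helper24.KG (Zero ZeroDim ZeroAll IsWeightsF)

open Pool.Agent.Helper95.WC (hyper dbl addOne)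

open Pool.Agent.Helper24.SE (Acy)

universe v u

namespace Pool.Agent.Results.MP_e2821c_ag.UnionsOfTwoAffineSpaces

/-- The category `C` of Chow motives over `k`, with

* the motives `h(X)`, the Tate twists `N(j)` and the weight complexes `W(X)` (`Weights`);
* the functors `H m`;
* the statements `Van d i j` on the fields of transcendence degree at most `d` over `k`. -/
structure Mot (k : Type) [Field k] where
  C : Type u
  [cat : Category.{v} C]
  [pre : Preadditive C]
  [zero : HasZeroObject C]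
  [bin : HasBinaryBiproducts C]
  [fin : HasFiniteBiproducts C]
  D : Weights k C
  H : ℕ → C ⥤ ModuleCat.{0} ℚ
  [additive : ∀ m, (H m).Additive]
  Van : ℕ → ℤ → ℤ → Prop

attribute [instance] Mot.cat Mot.pre Mot.zero Mot.bin Mot.fin Mot.additive

/-- The known properties.

* `weight`: the weight complexes;
* `low`: `CH^j(X, m)_ℚ = 0` for `j ≤ 0 < m`;
* `points`: `H^i(F, ℚ(j)) = 0` for `i ≤ 0 < j` and the finite extensions `F` of `k` (Borel, Quillen);
* `fields`: the reduction of the fields of transcendence degree at most `d` to the smooth projective schemes of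
  dimension at most `d` and to rational coefficients (Gersten resolution, Beilinson–Lichtenbaum). -/
structure Known {k : Type} [Field k] (M : Mot.{v, u} k) : Prop where
  weight : IsWeightsF M.D
  low : ∀ (m : ℕ) (j : ℤ), 1 ≤ m → j ≤ 0 → ZeroAll (M.H m) M.D j
  points : ∀ (m : ℕ) (j : ℤ), 1 ≤ j → 2 * j ≤ m → ZeroDim (M.H m) M.D j 0
  fields : ∀ (d : ℕ) (J : ℤ), (∀ i j : ℤ, i ≤ 0 → 1 ≤ j → j ≤ J → M.Van d i j) ↔
    ∀ (m : ℕ) (j : ℤ), 1 ≤ j → j ≤ J → 2 * j ≤ m → ZeroDim (M.H m) M.D j d

/-- Q1 for all fields of the characteristic of `k` and of transcendence degree at most `d` over `k`, in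
the weights `1 ≤ j ≤ J`. -/
def VanUpTo {k : Type} [Field k] (M : Mot.{v, u} k) (d : ℕ) (J : ℤ) : Prop :=
  ∀ i j : ℤ, i ≤ 0 → 1 ≤ j → j ≤ J → M.Van d i j

/-- The complex `H m (W(X)(j))` is exact. -/
def Exact {k : Type} [Field k] (M : Mot.{v, u} k) (m : ℕ) (j : ℤ) (X : Sch k) : Prop :=
  Acy (M.H m) (onHK (M.D.tw j) (M.D.W X))

/-- `X` is a smooth affine scheme of finite type, and the union of two open subschemes which are
isomorphic to the affine space of dimension `N`. -/
structure IsTwoSpaces {k : Type} [Field k] (N : ℕ) (X : Sch k) : Prop where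
  ft : FT True X
  affine : IsAffine X.left
  smooth : Smooth X.hom
  glued : ∃ j₁ j₂ : aff k (MvPolynomial (Fin N) k) ⟶ X, IsOpenImmersion j₁.left ∧
    IsOpenImmersion j₂.left ∧ Set.range j₁.left ∪ Set.range j₂.left = Set.univ

variable {k : Type} [Field k]

lemma two_spaces {N : ℕ} (f : MvPolynomial (Fin N) k) : IsTwoSpaces (N + 1) (dbl f) where
  ft := ft_aff True
  affine := (inferInstance : IsAffine (Spec (CommRingCat.of (Pool.Agent.Helper62.DB.Db f))))
  smooth := Pool.Agent.Helper62.DB.smooth0 f (addOne k N)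
  glued := Pool.Agent.Helper62.DB.two_spaces0 f (addOne k N)

variable {M : Mot.{v, u} k} (hM : Known M)

include hM

lemma acy_dim {m : ℕ} {j : ℤ} {d : ℕ} (h : ZeroDim (M.H m) M.D j d) (X : Sch k)
    (hX : FT True X) (hd : topologicalKrullDim X.left ≤ d) : Exact M m j X :=
  Pool.Agent.Helper7.UTF.acy_dim hM.weight (M.H m) (fun Y hY hYd => h Y hY hYd) X hX hd

lemma acy_pt {m : ℕ} {j : ℤ} (hj : 1 ≤ j) (hjm : 2 * j ≤ m) (r : ℕ) :
    Exact M m (j - r) (aff k k) := by
  have h0 : topologicalKrullDim (aff k k).left ≤ (0 : ℕ) := by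
    rw [Pool.Agent.Z125.UN.topDim_aff, ringKrullDim_eq_zero_of_field]
    exact le_rfl
  rcases le_or_gt (j - r) 0 with h1 | h1
  · exact acy_dim hM (fun X hX _ => hM.low m _ (by omega) h1 X hX) _ (ft_aff True) h0
  · exact acy_dim hM (hM.points m _ (by omega) (by omega)) _ (ft_aff True) h0

/-- The two complexes. -/
theorem exact_iff {m : ℕ} {j : ℤ} (hj : 1 ≤ j) (hjm : 2 * j ≤ m) {N : ℕ}
    (F : MvPolynomial (Fin N) k) : Exact M m (j + 1) (dbl F) ↔ Exact M m j (hyper F) :=
  Pool.Agent.Helper7.UTF.dbl_hyper (Pool.Agent.Helper7.UT.th_acy (M.H m)) hM.weight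
    (acy_pt hM hj hjm N) F

/-- One dimension. -/
theorem dim_iff [PerfectField k] {m : ℕ} {j : ℤ} (hj : 1 ≤ j) (hjm : 2 * j ≤ m) (d : ℕ) :
    ZeroDim (M.H m) M.D j d ↔
      ∀ F : MvPolynomial (Fin (d + 1)) k, Exact M m (j + 1) (dbl F) := by
  constructor
  · intro h F
    exact (exact_iff hM hj hjm F).mpr (Pool.Agent.Helper7.UTF.to_hyper
      (Pool.Agent.Helper7.UT.th_acy (M.H m)) hM.weight (acy_pt hM hj hjm (d + 1))
      (fun X hX hd => acy_dim hM h X hX hd) F)
  · intro h X hX hd
    exact Pool.Agent.Helper7.UTF.acy_proj hM.weight (M.H m) hX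
      (Pool.Agent.Helper7.UTF.of_hyper (Pool.Agent.Helper7.UT.th_acy (M.H m)) hM.weight
        (acy_pt hM hj hjm (d + 1)) (fun F => (exact_iff hM hj hjm F).mp (h F)) X
        (ft_projective hX) hd)

/-- All dimensions. -/
theorem exact_all {m : ℕ} {j : ℤ} (hj : 1 ≤ j) (hjm : 2 * j ≤ m)
    (h : ∀ d, ZeroDim (M.H m) M.D j d) {N : ℕ} (F : MvPolynomial (Fin N) k) :
    Exact M m (j + 1) (dbl F) := by
  obtain ⟨N', hN⟩ := Pool.Agent.Helper24.KZ.exists_dim_aff (k := k)
    (MvPolynomial (Fin N) k ⧸ Ideal.span {F})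
  exact (exact_iff hM hj hjm F).mpr (acy_dim hM (h N') _ (ft_aff True) hN)

omit hM

/-- **The Beilinson–Soulé vanishing and unions of two affine spaces.** See the explanations above. -/
theorem result (k : Type) [Field k] [PerfectField k] (M : Mot.{v, u} k) (hM : Known M) :
    -- (1) geometry
    (∀ (N : ℕ) (f : MvPolynomial (Fin N) k), IsTwoSpaces (N + 1) (dbl f)) ∧
    -- (2) the hypersurface `f = 0`
    (∀ (m : ℕ) (j : ℤ), 1 ≤ j → 2 * j ≤ m → ∀ (N : ℕ) (f : MvPolynomial (Fin N) k),
      (Exact M m (j + 1) (dbl f) ↔ Exact M m j (hyper f))) ∧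
    -- (3) smooth projective schemes, one group
    (∀ (m : ℕ) (j : ℤ), 1 ≤ j → 2 * j ≤ m → ∀ d : ℕ, ZeroDim (M.H m) M.D j d ↔
      ∀ f : MvPolynomial (Fin (d + 1)) k, Exact M m (j + 1) (dbl f)) ∧
    -- (4) fields, one dimension
    (∀ (d : ℕ) (J : ℤ), VanUpTo M d J ↔ ∀ (m : ℕ) (j : ℤ), 1 ≤ j → j ≤ J → 2 * j ≤ m →
      ∀ f : MvPolynomial (Fin (d + 1)) k, Exact M m (j + 1) (dbl f)) ∧
    -- (5) all fields
    ((∀ (d : ℕ) (J : ℤ), VanUpTo M d J) ↔ ∀ (m : ℕ) (j : ℤ), 1 ≤ j → 2 * j ≤ m →
      ∀ (N : ℕ) (f : MvPolynomial (Fin N) k), Exact M m (j + 1) (dbl f)) := by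
  have h4 : ∀ (d : ℕ) (J : ℤ), VanUpTo M d J ↔ ∀ (m : ℕ) (j : ℤ), 1 ≤ j → j ≤ J → 2 * j ≤ m →
      ∀ f : MvPolynomial (Fin (d + 1)) k, Exact M m (j + 1) (dbl f) := by
    intro d J
    refine (hM.fields d J).trans ?_
    exact forall₂_congr fun m j => forall₃_congr fun hj _ hjm => dim_iff hM hj hjm d
  refine ⟨fun N f => two_spaces f, fun m j hj hjm N f => exact_iff hM hj hjm f,
    fun m j hj hjm d => dim_iff hM hj hjm d, h4, fun h m j hj hjm N f => ?_, fun h d J => ?_⟩
  · exact exact_all hM hj hjm (fun d => (hM.fields d j).mp (h d j) m j hj le_rfl hjm) f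
  · exact (h4 d J).mpr fun m j hj _ hjm f => h m j hj hjm _ f

end Pool.Agent.Results.MP_e2821c_ag.UnionsOfTwoAffineSpaces
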